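import Mathlib
import Pool.Agent.H.MP_ff8adc_an.D

set_option autoImplicit false

open Filter Topology Set Function MeasureTheory Complex Pool.Agent.H.MP_ff8adc_an

namespace Pool.Agent.Results.MP_aff8e8_an.No

theorem rect_gg (τ β : ℝ) {α θ a c d : ℝ} {l : ℂ} (hα : 0 < α) (ha : a < 0) (h1 : c < θ)
    (h2 : θ < d) (h3 : α * (d - c) ≤ 2 * Real.pi) (hl : exp (α * (θ * I)) = l) :
    Rect (gg τ α β l) a 1 c d = 2 * Real.pi * I * (ee τ (1 + α - β) (θ * I) / (α * l)) := by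
  have hπ := Real.pi_pos
  have := rect_pole (ee_diff τ (1 + α - β)) hα.ne' (a := a) (b := 1) (c := c) (d := d)
    (w := θ * I) (by simpa using ha) (by simp) (by simpa using h1) (by simpa using h2)
    (fun s hs h => by
      obtain ⟨n, hn⟩ := exp_eq_exp_iff_exists_int.1 h
      have hi := congrArg im hn
      rw [uIcc_of_le (by linarith)] at hs
      simp at hi
      have n1 : (n : ℝ) < 1 := by nlinarith [hs.2]
      have n2 : (-1 : ℝ) < n := by nlinarith [hs.1]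
      have : n = 0 := by
        have : n < 1 := by exact_mod_cast n1
        have : -1 < n := by exact_mod_cast n2
        omega
      rw [this] at hn
      exact mul_left_cancel₀ (ofReal_ne_zero.2 hα.ne') (by simpa using hn))
  rw [hl] at this
  exact this

noncomputable def ll (α : ℝ) : ℂ := exp (-(I * Real.pi * α / 2))

theorem good {e : ℝ} (he : e ∈ Icc (0.0008 : ℝ) 0.0012) : Good (2 - e) (ll (2 - e)) := by
  have h1 := Real.pi_pos
  have e1 := he.1
  have e2 := he.2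
  have c : (starRingEnd ℂ) (ll (2 - e)) = exp (((2 - e) * Real.pi / 2 : ℝ) * I) := by
    rw [ll, ← exp_conj]; congr 1; simp [map_ofNat]; ring
  refine ⟨by linarith, by rw [ll, norm_exp]; simp, ?_, ?_⟩
  · have : om (2 - e) * (starRingEnd ℂ) (ll (2 - e)) =
        exp ((3 * (2 - e) * Real.pi / 2 : ℝ) * I) := by
      rw [c, om, ← exp_add]; congr 1; push_cast; ring
    rw [this, exp_ofReal_mul_I_re, ← Real.cos_sub_two_pi]
    exact (Real.cos_nonpos_of_pi_div_two_le_of_le (by nlinarith) (by nlinarith)).trans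
      (by norm_num)
  · have : om' (2 - e) * (starRingEnd ℂ) (ll (2 - e)) =
        exp ((-((2 - e) * Real.pi / 2) : ℝ) * I) := by
      rw [c, om', ← exp_add]; congr 1; push_cast; ring
    rw [this, exp_ofReal_mul_I_re, Real.cos_neg]
    exact (Real.cos_nonpos_of_pi_div_two_le_of_le (by nlinarith) (by nlinarith)).trans
      (by norm_num)

noncomputable def dd (e : ℝ) : ℝ := 2 * Real.pi / (2 - e) - Real.pi

theorem dd_bd {e : ℝ} (he : e ∈ Icc (0.0008 : ℝ) 0.0012) : 1.57 * e ≤ dd e ∧ dd e ≤ 1.58 * e := by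
  have := Real.pi_gt_d4
  have := Real.pi_lt_d4
  have e1 := he.1
  have e2 := he.2
  rw [dd, le_sub_iff_add_le, le_div_iff₀ (by linarith), sub_le_iff_le_add,
    div_le_iff₀ (by linarith)]
  constructor <;> nlinarith

theorem two {e : ℝ} (he : e ∈ Icc (0.0008 : ℝ) 0.0012) (τ β : ℝ) : ∀ a < 0,
    Rect (gg τ (2 - e) β (ll (2 - e))) a 1 (-Real.pi) Real.pi = 2 * Real.pi * I *
      ((ee τ (1 + (2 - e) - β) ((-(Real.pi / 2) : ℝ) * I) +
        ee τ (1 + (2 - e) - β) ((Real.pi / 2 + dd e : ℝ) * I)) / ((2 - e : ℝ) * ll (2 - e))) := by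
  intro a ha
  have G := good he
  have := Real.pi_gt_d2
  have e1 := he.1
  have e2 := he.2
  obtain ⟨d1, d2⟩ := dd_bd he
  have a1 : ((2 - e : ℝ) : ℂ) ≠ 0 := ofReal_ne_zero.2 G.pos.ne'
  have r1 := rect_gg τ β (θ := -(Real.pi / 2)) (c := -Real.pi) (d := 0) (l := ll (2 - e)) G.pos ha
    (by linarith) (by linarith) (by nlinarith) (by rw [ll]; congr 1; push_cast; ring)
  have r2 := rect_gg τ β (θ := Real.pi / 2 + dd e) (c := 0) (d := Real.pi) (l := ll (2 - e))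
    G.pos ha (by linarith) (by linarith) (by nlinarith) (by
      rw [ll, ← exp_periodic (-_), dd, ofReal_add, ofReal_sub (_ / _), ofReal_div _ (2 - e)]
      congr 1; field_simp; push_cast; ring)
  have i1 := vert_cont G τ β ha.ne
  have i2 := vert_cont G τ β one_ne_zero
  simp only [Rect] at r1 r2 ⊢
  rw [← intervalIntegral.integral_add_adjacent_intervals (i1.intervalIntegrable _ 0)
    (i1.intervalIntegrable 0 _), ← intervalIntegral.integral_add_adjacent_intervals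
    (i2.intervalIntegrable _ 0) (i2.intervalIntegrable 0 _)]
  linear_combination r1 + r2

noncomputable def yy (e τ : ℝ) : ℂ := exp (τ * (I * exp (dd e * I)))
noncomputable def U1 (e τ : ℝ) : ℂ := ((exp (τ * I))⁻¹ + yy e τ) / (2 - e : ℝ) +
  ll (2 - e) * SS e * JJ τ (2 - e) (2 - e) (ll (2 - e))
noncomputable def U0 (e τ : ℝ) : ℂ := ((exp (τ * I))⁻¹ * I + yy e τ / (I * exp (dd e * I))) /
  (2 - e : ℝ) - ll (2 - e) * SS e * JJ τ (1 - e) (2 - e) (ll (2 - e))
noncomputable def U2 (e τ : ℝ) : ℂ := (-((exp (τ * I))⁻¹ * I) + yy e τ * (I * exp (dd e * I))) /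
  (2 - e : ℝ) - ll (2 - e) * SS e * JJ τ (3 - e) (2 - e) (ll (2 - e))

theorem ee_one (τ a : ℝ) (s : ℂ) : ee τ (a + 1) s = ee τ a s * exp s := by
  rw [ee, ee, ← exp_add]; congr 1; push_cast; ring

theorem rep {e τ : ℝ} (he : e ∈ Icc (0.0008 : ℝ) 0.0012) (hτ : 0 < τ) :
    Hk (gg τ (2 - e) 1 (ll (2 - e))) 1 = 2 * Real.pi * I * U1 e τ ∧
    Hk (gg τ (2 - e) 2 (ll (2 - e))) 1 = 2 * Real.pi * I * U0 e τ ∧
    Hk (gg τ (2 - e) (2 - e) (ll (2 - e))) 1 = 2 * Real.pi * I * (U2 e τ / ll (2 - e)) := by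
  have G := good he
  have e1 := he.1
  have e2 := he.2
  have a1 : ((2 - e : ℝ) : ℂ) ≠ 0 := ofReal_ne_zero.2 G.pos.ne'
  have hπ : (Real.pi : ℂ) ≠ 0 := ofReal_ne_zero.2 Real.pi_ne_zero
  have hl : ll (2 - e) ≠ 0 := exp_ne_zero _
  have hq := exp_ne_zero (dd e * I)
  have p1 : exp (((-(Real.pi / 2) : ℝ) : ℂ) * I) = -I := by
    push_cast; rw [neg_mul, exp_neg, exp_pi_div_two_mul_I, inv_I]
  have p2 : exp (((Real.pi / 2 + dd e : ℝ) : ℂ) * I) = I * exp (dd e * I) := by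
    push_cast; rw [add_mul, exp_add, exp_pi_div_two_mul_I]
  have q1 : ee τ (2 - e) ((-(Real.pi / 2) : ℝ) * I) = (exp (τ * I))⁻¹ * ll (2 - e) := by
    rw [ee, p1, exp_add, mul_neg, exp_neg, ll]; congr 2; push_cast; ring
  have q2 : ee τ (2 - e) ((Real.pi / 2 + dd e : ℝ) * I) = yy e τ * ll (2 - e) := by
    rw [ee, p2, exp_add, yy, ll, ← exp_periodic (-_)]
    rw [dd, ofReal_add, ofReal_sub, ofReal_div _ (2 - e)]
    congr 2; field_simp; push_cast; ring
  have s1 : om (2 - e) - om' (2 - e) = -(2 * I * Real.pi * SS e) := by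
    rw [om_sub, sub_mul, Real.sin_two_pi_sub, SS]; push_cast; field_simp
  have o1 : om (1 - e) = -om (2 - e) := by
    rw [om, om, ← exp_antiperiodic]; rw [← exp_periodic]; congr 1; push_cast; ring
  have o2 : om' (1 - e) = -om' (2 - e) := by
    rw [om', om', ← exp_antiperiodic]; congr 1; push_cast; ring
  refine ⟨?_, ?_, ?_⟩
  · rw [hk_rep G hτ (by linarith) (two he τ 1), show 1 + (2 - e) - 1 = 2 - e by ring, q1, q2, s1,
      U1]
    field_simp
    ring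
  · have z1 := ee_one τ (1 - e) ((-(Real.pi / 2) : ℝ) * I)
    have z2 := ee_one τ (1 - e) ((Real.pi / 2 + dd e : ℝ) * I)
    rw [show 1 - e + 1 = 2 - e by ring] at z1 z2
    rw [q1, p1, ← div_eq_iff (by simp)] at z1
    rw [q2, p2, ← div_eq_iff (by simp)] at z2
    rw [hk_rep G hτ (by linarith) (two he τ 2), show 1 + (2 - e) - 2 = 1 - e by ring, ← z1, ← z2,
      o1, o2, neg_sub_neg, ← neg_sub (om _), s1, U0, div_neg, div_I]
    field_simp
    ring
  · have z : ∀ s, ee τ 1 s = exp (τ * exp s) * exp s := fun s => by rw [ee, exp_add]; simp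
    have o3 : om 1 = -1 := by simp [om]
    have o4 : om' 1 = -1 := by simp [om', exp_neg]
    rw [hk_rep G hτ (by linarith) (two he τ _), show 1 + (2 - e) - (2 - e) = 1 by ring, z, z,
      p1, p2, o3, o4, show 1 + (2 - e) = 3 - e by ring, U2, yy, mul_neg (τ : ℂ), exp_neg]
    field_simp
    linear_combination (JJ τ (3 - e) (2 - e) (ll (2 - e)) * ll (2 - e) * (2 - e : ℝ) *
      exp (I * τ)) * s1

noncomputable def Z (p : ℝ × ℝ) : ℂ := (2 - p.1 : ℝ) * exp (TT p.2 * I) *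
  (U1 p.1 (TT p.2) ^ 2 - U0 p.1 (TT p.2) * U2 p.1 (TT p.2))

theorem Z_cont : ContinuousOn Z (Icc 0.0008 0.0012 ×ˢ Icc (-1) 1) := by
  have hne : ∀ p ∈ Icc (0.0008 : ℝ) 0.0012 ×ˢ Icc (-1 : ℝ) 1, 2 - p.1 ≠ 0 :=
    fun p hp => (good hp.1).pos.ne'
  have c3 := TT_cont
  have c4 := SS_cont
  have c5 : Continuous ll := by unfold ll; fun_prop
  have c : ∀ a : ℝ, 1 ≤ a → a ≤ 3 → ContinuousOn (fun p : ℝ × ℝ => ll (2 - p.1) * SS p.1 *
      JJ (TT p.2) (a - p.1) (2 - p.1) (ll (2 - p.1))) (Icc 0.0008 0.0012 ×ˢ Icc (-1) 1) :=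
    fun a a1 a2 => ContinuousOn.mul (by fun_prop) (JJ_cont (by fun_prop)
      (by fun_prop) (by fun_prop) (by fun_prop) (fun p hp => ⟨good hp.1,
        by linarith [(TT_bd hp.2).1], by linarith [hp.1.2], by linarith [hp.1.1]⟩))
  have c2 : ContinuousOn (fun p : ℝ × ℝ => dd p.1) (Icc 0.0008 0.0012 ×ˢ Icc (-1) 1) :=
    (ContinuousOn.div (by fun_prop) (by fun_prop) hne).sub continuousOn_const
  have c6 : ContinuousOn (fun p : ℝ × ℝ => yy p.1 (TT p.2)) (Icc 0.0008 0.0012 ×ˢ Icc (-1) 1) := by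
    unfold yy; fun_prop
  have c7 : Continuous (fun p : ℝ × ℝ => (exp (TT p.2 * I))⁻¹) :=
    Continuous.inv₀ (by fun_prop) (fun _ => exp_ne_zero _)
  have c8 : ContinuousOn (fun p : ℝ × ℝ => yy p.1 (TT p.2) / (I * exp (dd p.1 * I)))
      (Icc 0.0008 0.0012 ×ˢ Icc (-1) 1) :=
    c6.div (by fun_prop) (fun _ _ => mul_ne_zero I_ne_zero (exp_ne_zero _))
  have hne' : ∀ p ∈ Icc (0.0008 : ℝ) 0.0012 ×ˢ Icc (-1 : ℝ) 1, ((2 - p.1 : ℝ) : ℂ) ≠ 0 :=
    fun p hp => ofReal_ne_zero.2 (hne p hp)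
  refine ContinuousOn.mul (by fun_prop) ((ContinuousOn.pow (ContinuousOn.add ?_
    (c 2 (by norm_num) (by norm_num))) 2).sub (ContinuousOn.mul
      (ContinuousOn.sub ?_ (c 1 (by norm_num) (by norm_num)))
      (ContinuousOn.sub ?_ (c 3 (by norm_num) (by norm_num)))))
  · exact (c7.continuousOn.add c6).div (by fun_prop) hne'
  · exact ((c7.continuousOn.mul continuousOn_const).add c8).div (by fun_prop) hne'
  · exact ((c7.continuousOn.mul continuousOn_const).neg.add (c6.mul (by fun_prop))).div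
      (by fun_prop) hne'

theorem est {a g y q c0 c1 c2 m : ℂ} (ha : ‖a‖ ≤ 2) (hg : ‖g‖ = 1) (hy : ‖y‖ ≤ 1e-5) (hq : ‖q‖ = 1)
    (h0 : ‖c0‖ ≤ 6e-7) (h1 : ‖c1‖ ≤ 1e-10) (h2 : ‖c2‖ ≤ 1e-13) (hm : ‖c0 + m‖ ≤ 6e-10) :
    ‖-(I * (c0 + m)) + 2 * c1 + I * c2 + y * g * (2 * c1 + c2 / (I * q) + c0 * (I * q)) +
      a * g * (c1 ^ 2 - c0 * c2)‖ ≤ 1e-9 := by
  have b1 : ‖2 * c1 + c2 / (I * q) + c0 * (I * q)‖ ≤ 7e-7 := by
    refine (norm_add₃_le).trans ?_
    simp only [norm_mul, norm_div, norm_I, hq, Complex.norm_ofNat]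
    linarith
  have b2 : ‖c1 ^ 2 - c0 * c2‖ ≤ 1e-18 := by
    refine (norm_sub_le _ _).trans ?_
    rw [norm_mul, norm_pow]
    nlinarith [mul_le_mul h0 h2 (norm_nonneg _) (by norm_num), norm_nonneg c1]
  refine (norm_add₃_le).trans ((add_le_add_left (add_le_add_left norm_add₃_le _) _).trans ?_)
  simp only [norm_mul, norm_neg, norm_I, hg, Complex.norm_ofNat]
  nlinarith [mul_le_mul hy b1 (norm_nonneg _) (by norm_num),
    mul_le_mul ha b2 (norm_nonneg _) (by norm_num)]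

theorem zero : ∃ e ∈ Icc (0.0008 : ℝ) 0.0012, ∃ v ∈ Icc (-1 : ℝ) 1, Z (e, v) = 0 := by
  refine box Z Z_cont (fun e he v hv => ?_)
  obtain ⟨t1, t2⟩ := TT_bd hv
  obtain ⟨s1, s2⟩ := SS_bd he
  obtain ⟨p1, p2⟩ := PP_bd he hv
  obtain ⟨d1, d2⟩ := dd_bd he
  have G := good he
  have e1 := he.1
  have e2 := he.2
  have := Real.pi_lt_d2
  have τ0 : 0 < TT v := by linarith
  have a1 : ((2 - e : ℝ) : ℂ) ≠ 0 := ofReal_ne_zero.2 G.pos.ne'
  have hl : ll (2 - e) ≠ 0 := exp_ne_zero _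
  have hc := Real.one_sub_sq_div_two_le_cos (x := dd e)
  have nn : ∀ J : ℂ, ‖ll (2 - e) * SS e * J‖ ≤ 0.0012 * ‖J‖ := fun J => by
    rw [norm_mul, norm_mul, G.nl, one_mul, norm_real, Real.norm_eq_abs, abs_of_pos (by linarith)]
    exact mul_le_mul_of_nonneg_right (by linarith) (norm_nonneg _)
  have jj : ∀ (n : ℕ) (a : ℝ), n - a ≤ 1 / 14 → 1 ≤ a → a ≤ 3 →
      (1 / TT v) ^ a * Real.Gamma a ≤ 2 * (1 / 10000) ^ n * 2 := fun n a h h1 h2 =>
    mul_le_mul (rp_le n (by linarith) (by linarith) h) (G23 h1 h2)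
      (Real.Gamma_pos_of_pos (by linarith)).le (by positivity)
  refine ⟨(2 + 2 * Real.cos (dd e)) / (2 - e), dd e, _, ?_, ?_, ?_, d1, d2,
    est (a := (2 - e : ℝ)) (g := exp (TT v * I)) (y := yy e (TT v)) (q := exp (dd e * I))
      (c0 := ll (2 - e) * SS e * JJ (TT v) (1 - e) (2 - e) (ll (2 - e)))
      (c1 := ll (2 - e) * SS e * JJ (TT v) (2 - e) (2 - e) (ll (2 - e)))
      (c2 := ll (2 - e) * SS e * JJ (TT v) (3 - e) (2 - e) (ll (2 - e)))
      (m := (SS e * PP e (TT v) : ℝ)) ?_ (norm_exp_ofReal_mul_I _) ?_ (norm_exp_ofReal_mul_I _)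
      ?_ ?_ ?_ ?_⟩
  · have hq := exp_ne_zero (dd e * I)
    have hg := exp_ne_zero (TT v * I)
    have k : ((2 * Real.cos (dd e) : ℝ) : ℂ) = exp (dd e * I) + (exp (dd e * I))⁻¹ := by
      rw [← exp_neg, ← neg_mul, ← two_cos]; push_cast; rfl
    rw [Z, U0, U1, U2, ofReal_div, ofReal_add, k, ← yy]
    simp only [ofReal_ofNat]
    generalize ll (2 - e) * SS e * JJ (TT v) (1 - e) (2 - e) (ll (2 - e)) = c0
    generalize ll (2 - e) * SS e * JJ (TT v) (2 - e) (2 - e) (ll (2 - e)) = c1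
    generalize ll (2 - e) * SS e * JJ (TT v) (3 - e) (2 - e) (ll (2 - e)) = c2
    generalize exp (dd e * I) = q at hq ⊢
    generalize exp (TT v * I) = g at hg ⊢
    generalize ((2 - e : ℝ) : ℂ) = a at a1 ⊢
    field_simp
    ring_nf
    simp only [I_sq, I_pow_three]
    ring
  · rw [le_div_iff₀ (by linarith)]; nlinarith
  · rw [div_le_iff₀ (by linarith)]; nlinarith [Real.cos_le_one (dd e)]
  · rw [norm_real, Real.norm_eq_abs, abs_of_pos G.pos]; linarith
  · have h := exp_ub 12 (x := TT v * Real.sin (dd e)) (by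
      push_cast; nlinarith [sin_lb (d := dd e) (by linarith) (by linarith)])
    rw [yy, norm_exp]
    simp only [mul_re, ofReal_re, ofReal_im, I_re, I_im, exp_ofReal_mul_I_im, zero_mul, one_mul,
      zero_sub, sub_zero, mul_neg]
    exact h.trans (by norm_num)
  · have := JJ_bd G (a := 1 - e) τ0 (by linarith)
    rw [← PP] at this
    linarith [nn (JJ (TT v) (1 - e) (2 - e) (ll (2 - e)))]
  · have := JJ_bd G (a := 2 - e) τ0 (by linarith)
    linarith [nn (JJ (TT v) (2 - e) (2 - e) (ll (2 - e))),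
      jj 2 (2 - e) (by push_cast; linarith) (by linarith) (by linarith)]
  · have := JJ_bd G (a := 3 - e) τ0 (by linarith)
    linarith [nn (JJ (TT v) (3 - e) (2 - e) (ll (2 - e))),
      jj 3 (3 - e) (by push_cast; linarith) (by linarith) (by linarith)]
  · have j := JJ_est G (a := 1 - e) τ0 (by linarith)
    rw [← PP] at j
    have j2 := jj 3 (1 - e + (2 - e)) (by push_cast; linarith) (by linarith) (by linarith)
    have k : ll (2 - e) + 1 = -(exp (I * (e * Real.pi / 2 : ℝ)) - 1) := by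
      rw [neg_sub', ← exp_antiperiodic, ll, ← exp_periodic, sub_neg_eq_add]
      congr 2; push_cast; ring
    have k2 : ‖ll (2 - e) + 1‖ ≤ 0.002 := by
      rw [k, norm_neg]
      refine Real.norm_exp_I_mul_ofReal_sub_one_le.trans ?_
      rw [Real.norm_eq_abs, abs_of_pos (by have := Real.pi_pos; positivity)]; nlinarith
    have k3 : ll (2 - e) * SS e * JJ (TT v) (1 - e) (2 - e) (ll (2 - e)) +
        (SS e * PP e (TT v) : ℝ) = ll (2 - e) * SS e * ((JJ (TT v) (1 - e) (2 - e) (ll (2 - e)) -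
          PP e (TT v) / ll (2 - e) ^ 2) + PP e (TT v) * (ll (2 - e) + 1) / ll (2 - e) ^ 2) := by
      rw [ofReal_mul]; field_simp; ring
    rw [k3]
    refine (nn _).trans ?_
    have k4 := norm_add_le (JJ (TT v) (1 - e) (2 - e) (ll (2 - e)) - PP e (TT v) / ll (2 - e) ^ 2)
      (PP e (TT v) * (ll (2 - e) + 1) / ll (2 - e) ^ 2)
    rw [norm_div, norm_pow, G.nl, norm_mul, norm_real, Real.norm_eq_abs,
      abs_of_pos (by linarith)] at k4
    nlinarith [mul_le_mul p2 k2 (norm_nonneg _) (by norm_num)]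

theorem result : ∃ α ∈ Ioo (1 : ℝ) 2, ∃ t : ℝ, 0 < t ∧ ∃ z A B C : ℂ,
    z = exp (-(I * Real.pi * α / 2)) * t ∧
    HasSum (fun k : ℕ => z ^ k / (Real.Gamma (α * k + 1) : ℂ)) A ∧
    HasSum (fun k : ℕ => z ^ k / (Real.Gamma (α * k + 2) : ℂ)) B ∧
    HasSum (fun k : ℕ => z ^ k / (Real.Gamma (α * k + α) : ℂ)) C ∧
    A ^ 2 - z * B * C = 0 := by
  obtain ⟨e, he, v, hv, h⟩ := zero
  have G := good he
  have hτ : 0 < TT v := by linarith [(TT_bd hv).1]
  obtain ⟨r1, r2, r3⟩ := rep he hτ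
  refine ⟨2 - e, ⟨by linarith [he.2], by linarith [he.1]⟩, TT v ^ (2 - e),
    Real.rpow_pos_of_pos hτ _, _, _, _, _, rfl, hs_E hτ G.pos one_pos G.nl,
    hs_E hτ G.pos two_pos G.nl, hs_E hτ G.pos G.pos G.nl, ?_⟩
  have hπ : (Real.pi : ℂ) ≠ 0 := ofReal_ne_zero.2 Real.pi_ne_zero
  have hl : ll (2 - e) ≠ 0 := exp_ne_zero _
  have h1 : (TT v : ℂ) ≠ 0 := ofReal_ne_zero.2 hτ.ne'
  have h2 : ((TT v ^ (2 - e) : ℝ) : ℂ) ≠ 0 := ofReal_ne_zero.2 (Real.rpow_pos_of_pos hτ _).ne'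
  have h3 := (mul_eq_zero.1 h).resolve_left
    (mul_ne_zero (ofReal_ne_zero.2 G.pos.ne') (exp_ne_zero _))
  rw [← ll, r1, r2, r3, sub_self, Real.rpow_zero, show (2 : ℝ) - 1 = 1 by norm_num, Real.rpow_one,
    Real.rpow_sub_one hτ.ne', ofReal_div, ofReal_one]
  field_simp
  linear_combination h3

end Pool.Agent.Results.MP_aff8e8_an.No
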